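import Mathlib
import Pool.Agent.H964.CW.Stm

/-! # Project CW, task CMP: comparison of the fields with and without drift -/

set_option autoImplicit false

open MeasureTheory ProbabilityTheory Filter Finset

namespace Pool.Agent.H224.CW

open Pool.Agent.H964.QC Pool.Agent.H964.CW

theorem q1_one_ne {M : ℕ} (k : ZMod M) (h : q1 M 1 k ≠ 0) : k = 1 ∨ k = -1 := by
  by_contra hc
  push Not at hc
  apply h
  have h1 : ¬ (k - 1 = 0) := fun h0 => hc.1 (sub_eq_zero.mp h0)
  have h2 : ¬ (k + 1 = 0) := fun h0 => hc.2 (eq_neg_of_add_eq_zero_left h0)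
  show (q1 M 0 (k - 1) + q1 M 0 (k + 1)) / 2 = 0
  simp [q1, h1, h2]

theorem valMinAbs_add_int {M : ℕ} [NeZero M] (y z : ZMod M) (e : ℤ) (N0 : ℕ) (hM : M = 4 * N0 + 4)
    (hy : |y.valMinAbs| ≤ 2 * N0) (he : |e| ≤ 1) (h : z = y + (e : ZMod M)) :
    z.valMinAbs = y.valMinAbs + e := by
  rw [ZMod.valMinAbs_spec]
  constructor
  · rw [h, Int.cast_add, ZMod.coe_valMinAbs]
  · have h1 := abs_le.mp hy
    have h2 := abs_le.mp he
    have h3 : (M : ℤ) = 4 * N0 + 4 := by exact_mod_cast hM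
    rw [Set.mem_Ioc, h3]
    constructor <;> linarith [h1.1, h1.2, h2.1, h2.2]

theorem Zr_nonneg {V : Type} [Fintype V] [DecidableEq V] {C0 : ℝ} {N0 : ℕ} (W : Wlk V C0 N0)
    (x : ℕ → V → ℝ) (hx : ∀ n v, -1 < x n v) (j : ℕ) : ∀ y, 0 ≤ Zr W x j y := by
  induction j with
  | zero => intro y; simp [Zr]
  | succ j ih =>
    intro y
    show 0 ≤ ∑ z, W.K 1 y z * ((1 + x (j + 1) z) * Zr W x j z)
    exact Finset.sum_nonneg fun z _ => mul_nonneg (W.K_nonneg _ _ _)
      (mul_nonneg (by linarith [hx (j + 1) z]) (ih z))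

theorem t_CMP : S_CMP := by
  intro C0 N0 M _ W hW A H x0 χ x hA0 hAm hA hχ0 hχ1 hχH hx j
  have hApos : ∀ j, 0 ≤ A j := fun j => hA0 ▸ hAm (Nat.zero_le j)
  induction j with
  | zero =>
    intro y _
    simp [dz, Zr, hA0]
  | succ j ih =>
    intro y hy
    have hy' : |X1 y| + ((j : ℤ) + 1) ≤ 2 * N0 := by exact_mod_cast hy
    show ∑ z, ka W (A (j + 1)) y z * χ j z * ((1 + x (j + 1) z) * dz W A χ x j z) ≤
      Real.exp ((∑ i ∈ Finset.range (j + 1), (A (i + 1) - A i) * H i) - A (j + 1) * ((X1 y : ℝ) - x0)) *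
        ∑ z, W.K 1 y z * ((1 + x (j + 1) z) * Zr W x j z)
    rw [Finset.mul_sum]
    refine Finset.sum_le_sum fun z _ => ?_
    have hK0 : 0 ≤ W.K 1 y z := W.K_nonneg _ _ _
    have hx1 : 0 ≤ 1 + x (j + 1) z := by linarith [hx (j + 1) z]
    have hZ : 0 ≤ Zr W x j z := Zr_nonneg W x hx j z
    have hR : 0 ≤ W.K 1 y z * ((1 + x (j + 1) z) * Zr W x j z) := mul_nonneg hK0 (mul_nonneg hx1 hZ)
    by_cases hK : W.K 1 y z = 0
    · simp [ka, hK]
    by_cases hχ : χ j z = 0
    · rw [hχ]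
      simp only [mul_zero, zero_mul]
      exact mul_nonneg (Real.exp_pos _).le hR
    have hq : q1 M 1 (z.1 - y.1) ≠ 0 := by
      intro h0
      apply hK
      rw [hW.K_eq, h0, zero_mul]
    have hyle : |y.1.valMinAbs| ≤ 2 * N0 := by
      have : |X1 y| ≤ 2 * N0 := by linarith [(Nat.cast_nonneg j : (0 : ℤ) ≤ (j : ℤ))]
      exact this
    -- the step
    have hstep : (X1 z : ℝ) - X1 y = sg (z.1 - y.1) ∧ |X1 z| ≤ |X1 y| + 1 := by
      rcases q1_one_ne _ hq with h | h
      · have h1 : z.1.valMinAbs = y.1.valMinAbs + 1 :=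
          valMinAbs_add_int y.1 z.1 1 N0 hW.hM hyle (by simp) (by
            rw [sub_eq_iff_eq_add] at h; rw [h]; push_cast; ring)
        constructor
        · show ((z.1.valMinAbs : ℤ) : ℝ) - ((y.1.valMinAbs : ℤ) : ℝ) = sg (z.1 - y.1)
          rw [h1, h]; simp [sg]
        · show |z.1.valMinAbs| ≤ |y.1.valMinAbs| + 1
          rw [h1]; exact (abs_add_le _ _).trans (by simp)
      · have hne : (-1 : ZMod M) ≠ 1 := by
          intro h0
          have h2 : ((2 : ℕ) : ZMod M) = 0 := by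
            push_cast
            have : (1 : ZMod M) + 1 = 0 := by nth_rewrite 1 [← h0]; ring
            rw [← this]; norm_num
          rw [ZMod.natCast_eq_zero_iff] at h2
          have := Nat.le_of_dvd (by norm_num) h2
          have h3 := hW.hM
          omega
        have h1 : z.1.valMinAbs = y.1.valMinAbs + (-1) :=
          valMinAbs_add_int y.1 z.1 (-1) N0 hW.hM hyle (by simp) (by
            rw [sub_eq_iff_eq_add] at h; rw [h]; push_cast; ring)
        constructor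
        · show ((z.1.valMinAbs : ℤ) : ℝ) - ((y.1.valMinAbs : ℤ) : ℝ) = sg (z.1 - y.1)
          rw [h1, h]; simp [sg, hne]
        · show |z.1.valMinAbs| ≤ |y.1.valMinAbs| + 1
          rw [h1]; exact (abs_add_le _ _).trans (by simp)
    have hIH := ih z (by linarith [hstep.2])
    have hsg : |sg (z.1 - y.1)| ≤ 1 := by
      unfold sg; split_ifs <;> simp
    have hsg' := abs_le.mp hsg
    have h1a : 0 ≤ 1 + A (j + 1) * sg (z.1 - y.1) := by
      nlinarith [hApos (j + 1), hA (j + 1), hsg'.1, hsg'.2]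
    have h1b : 1 + A (j + 1) * sg (z.1 - y.1) ≤ Real.exp (A (j + 1) * sg (z.1 - y.1)) := by
      linarith [Real.add_one_le_exp (A (j + 1) * sg (z.1 - y.1))]
    have hexp : Real.exp (A (j + 1) * sg (z.1 - y.1)) *
        Real.exp ((∑ i ∈ Finset.range j, (A (i + 1) - A i) * H i) - A j * ((X1 z : ℝ) - x0)) ≤
        Real.exp ((∑ i ∈ Finset.range (j + 1), (A (i + 1) - A i) * H i) -
          A (j + 1) * ((X1 y : ℝ) - x0)) := by
      rw [← Real.exp_add]
      apply Real.exp_le_exp.mpr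
      rw [Finset.sum_range_succ, ← hstep.1]
      have h2 : (A (j + 1) - A j) * ((X1 z : ℝ) - x0) ≤ (A (j + 1) - A j) * H j :=
        mul_le_mul_of_nonneg_left (hχH j z hχ) (sub_nonneg.mpr (hAm (Nat.le_succ j)))
      linarith
    set E1 := Real.exp (A (j + 1) * sg (z.1 - y.1)) with hE1
    set E2 := Real.exp ((∑ i ∈ Finset.range j, (A (i + 1) - A i) * H i) - A j * ((X1 z : ℝ) - x0))
      with hE2
    set E3 := Real.exp ((∑ i ∈ Finset.range (j + 1), (A (i + 1) - A i) * H i) -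
          A (j + 1) * ((X1 y : ℝ) - x0)) with hE3
    have hE1p : 0 < E1 := Real.exp_pos _
    have hE2p : 0 < E2 := Real.exp_pos _
    calc ka W (A (j + 1)) y z * χ j z * ((1 + x (j + 1) z) * dz W A χ x j z)
        = (W.K 1 y z * (1 + A (j + 1) * sg (z.1 - y.1)) * χ j z * (1 + x (j + 1) z)) *
            dz W A χ x j z := by unfold ka; ring
      _ ≤ (W.K 1 y z * (1 + A (j + 1) * sg (z.1 - y.1)) * χ j z * (1 + x (j + 1) z)) *
            (E2 * Zr W x j z) :=
          mul_le_mul_of_nonneg_left hIH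
            (mul_nonneg (mul_nonneg (mul_nonneg hK0 h1a) (hχ0 j z)) hx1)
      _ = ((1 + A (j + 1) * sg (z.1 - y.1)) * χ j z) *
            (E2 * (W.K 1 y z * ((1 + x (j + 1) z) * Zr W x j z))) := by ring
      _ ≤ (E1 * 1) * (E2 * (W.K 1 y z * ((1 + x (j + 1) z) * Zr W x j z))) :=
          mul_le_mul_of_nonneg_right (mul_le_mul h1b (hχ1 j z) (hχ0 j z) hE1p.le)
            (mul_nonneg hE2p.le hR)
      _ = (E1 * E2) * (W.K 1 y z * ((1 + x (j + 1) z) * Zr W x j z)) := by ring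
      _ ≤ E3 * (W.K 1 y z * ((1 + x (j + 1) z) * Zr W x j z)) :=
          mul_le_mul_of_nonneg_right hexp hR

end Pool.Agent.H224.CW
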