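import Mathlib
import Pool.Agent.H964.CW.Stm2
import Pool.Agent.H922.QC.CHN

/-! # Project CW, task MK: Markov property for functions of the new weight -/

set_option autoImplicit false

open MeasureTheory ProbabilityTheory Filter Finset

namespace Pool.Agent.H224.CW

open Pool.Agent.H964.QC Pool.Agent.H964.CW

/-- Tonelli for a function of two independent variables -/
theorem lint_frz {Ω E1 E2 : Type} [MeasurableSpace Ω] [MeasurableSpace E1] [MeasurableSpace E2]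
    (P : Measure Ω) [IsProbabilityMeasure P] (X : Ω → E1) (Y : Ω → E2) (f : E1 × E2 → ENNReal)
    (hX : Measurable X) (hY : Measurable Y) (hf : Measurable f) (hXY : IndepFun X Y P) :
    ∫⁻ ω, f (X ω, Y ω) ∂P = ∫⁻ ω, (∫⁻ ω', f (X ω, Y ω') ∂P) ∂P := by
  have h1 : P.map (fun ω => (X ω, Y ω)) = (P.map X).prod (P.map Y) :=
    (indepFun_iff_map_prod_eq_prod_map_map hX.aemeasurable hY.aemeasurable).mp hXY
  have : IsProbabilityMeasure (P.map X) := Measure.isProbabilityMeasure_map hX.aemeasurable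
  have : IsProbabilityMeasure (P.map Y) := Measure.isProbabilityMeasure_map hY.aemeasurable
  calc ∫⁻ ω, f (X ω, Y ω) ∂P = ∫⁻ p, f p ∂(P.map (fun ω => (X ω, Y ω))) := by
        rw [lintegral_map hf (hX.prodMk hY)]
    _ = ∫⁻ a, (∫⁻ b, f (a, b) ∂(P.map Y)) ∂(P.map X) := by
        rw [h1, lintegral_prod _ hf.aemeasurable]
    _ = ∫⁻ a, (∫⁻ ω', f (a, Y ω') ∂P) ∂(P.map X) := by
        refine lintegral_congr fun a => ?_
        exact lintegral_map (hf.comp measurable_prodMk_left) hY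
    _ = ∫⁻ ω, (∫⁻ ω', f (X ω, Y ω') ∂P) ∂P := by
        rw [lintegral_map _ hX]
        have h2 : (fun a => ∫⁻ ω', f (a, Y ω') ∂P) = fun a => ∫⁻ b, f (a, b) ∂(P.map Y) := by
          funext a
          exact (lintegral_map (hf.comp measurable_prodMk_left) hY).symm
        rw [h2]
        exact hf.lintegral_prod_right'

section

variable {V : Type} [Fintype V] [DecidableEq V] {C0 : ℝ} {N0 : ℕ} (W : Wlk V C0 N0)

/-- the new weight is a probability vector with the right support -/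
theorem nw_facts (hDUAL : S_DUAL) {w : V → ℝ} (hw : ∀ x, 0 ≤ w x) (hw1 : ∑ x, w x = 1) (j T : ℕ)
    (hpos : ∀ (x : ℕ → V → ℝ) (j : ℕ) (y : V), (∀ n v, -1 < x n v) → 0 < Zr W x j y)
    (x : ℕ → V → ℝ) (hx : ∀ n v, -1 < x n v) :
    (∀ z, 0 ≤ nw W T w (sft j x) z) ∧ ∑ z, nw W T w (sft j x) z = 1 ∧
    0 < 1 + XX W w T (sft j x) T ∧
    lgZ W (j + T) w x = lgX W T w (sft j x) + lgZ W j (nw W T w (sft j x)) x ∧
    (∀ t : ℕ, (∀ z, w z ≠ 0 → W.cls t z) → ∀ z, nw W T w (sft j x) z ≠ 0 → W.cls (t + T) z) := by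
  obtain ⟨d1, -, -, -, -, -⟩ := hDUAL V C0 N0 W x w j T
  obtain ⟨-, d2, d3, d4, d5, -⟩ := hDUAL V C0 N0 W (sft j x) w j T
  have hx' : ∀ n v, -1 < sft j x n v := fun n v => hx (j + n) v
  have hS : 0 < ∑ z, fwd W (sft j x) T w z := by
    rw [← d2]
    exact Pool.Agent.H922.QC.sum_pos_of hw hw1 fun y => hpos _ T y hx'
  have h1 : ∀ z, 0 ≤ nw W T w (sft j x) z := fun z => div_nonneg (d4 hx' hw z) hS.le
  have h2 : ∑ z, nw W T w (sft j x) z = 1 := by
    show ∑ z, fwd W (sft j x) T w z / ∑ y, fwd W (sft j x) T w y = 1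
    rw [← Finset.sum_div]
    exact div_self hS.ne'
  have h3 : 1 + XX W w T (sft j x) T = ∑ z, fwd W (sft j x) T w z := by
    rw [d3, hw1, d2]; ring
  refine ⟨h1, h2, h3 ▸ hS, ?_, ?_⟩
  · have h4 : ∑ y, w y * Zr W x (j + T) y = (∑ z, fwd W (sft j x) T w z) *
        ∑ z, nw W T w (sft j x) z * Zr W x j z := by
      rw [d1, Finset.mul_sum]
      refine Finset.sum_congr rfl fun z _ => ?_
      show fwd W (sft j x) T w z * Zr W x j z = (∑ z, fwd W (sft j x) T w z) *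
        (fwd W (sft j x) T w z / (∑ y, fwd W (sft j x) T w y) * Zr W x j z)
      have := hS.ne'
      field_simp
    have h5 : 0 < ∑ z, nw W T w (sft j x) z * Zr W x j z :=
      Pool.Agent.H922.QC.sum_pos_of h1 h2 fun y => hpos x j y hx
    unfold lgZ lgX
    rw [h3, h4, Real.log_mul hS.ne' h5.ne']
  · intro t ht z hz
    apply d5 t ht z
    intro h0
    apply hz
    show fwd W (sft j x) T w z / ∑ y, fwd W (sft j x) T w y = 0
    rw [h0, zero_div]

end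

theorem t_MK : S_MEAS → S_IND → S_FRZ → S_DUAL → S_MK := by
  intro hMEAS hIND hFRZ hDUAL V _ _ C0 N0 W Ω _ P _ s2 κ η w j T hN hw hw1
  obtain ⟨-, hpos, -, -, hmF, -, hmC, -⟩ := hMEAS V C0 N0 W Ω P s2 κ η hN
  obtain ⟨hind, -, -⟩ := hIND V Ω P s2 κ η hN j
  have hnw := fun x hx => nw_facts W hDUAL hw hw1 j T hpos x hx
  refine ⟨fun x hx => ⟨(hnw x hx).1, (hnw x hx).2.1, (hnw x hx).2.2.1, (hnw x hx).2.2.2.1⟩, ?_⟩
  intro S F v v' hS hFm hFc hv0 hSq
  -- the new weight as a function of the shifted layers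
  obtain ⟨N, hNd⟩ : ∃ N : (ℕ → V → ℝ) → V → ℝ, ∀ y, N y = nw W T w (Pool.Agent.H922.QC.ush y) :=
    ⟨_, fun y => rfl⟩
  have hNm : Measurable N := by
    refine measurable_pi_lambda _ fun z => ?_
    have e1 : (fun y => N y z) = fun y => fwd W (Pool.Agent.H922.QC.ush y) T w z /
        ∑ u, fwd W (Pool.Agent.H922.QC.ush y) T w u := funext fun y => by rw [hNd]; rfl
    rw [e1]
    exact ((hmF T w z).comp Pool.Agent.H922.QC.meas_ush).div
      (Finset.measurable_sum _ fun u _ => (hmF T w u).comp Pool.Agent.H922.QC.meas_ush)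
  have hNs : ∀ x : ℕ → V → ℝ, nw W T w (sft j x) = N (sft (j + 1) x) := by
    intro x
    rw [hNd]
    unfold nw
    rw [Pool.Agent.H922.QC.fwd_congr W T (fun n hn => Pool.Agent.H922.QC.ush_sft j x n hn) w]
  have hgt : ∀ ω n v, -1 < cfg η ω n v := fun ω n v => hN.gt n v ω
  have hYm : Measurable fun ω => sft (j + 1) (cfg η ω) :=
    (Pool.Agent.H922.QC.meas_sft (j + 1)).comp hmC
  have hXm : Measurable fun ω => cut j (cfg η ω) := (Pool.Agent.H922.QC.meas_cut j).comp hmC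
  obtain ⟨Φ, hΦ⟩ : ∃ Φ : (ℕ → V → ℝ) × (ℕ → V → ℝ) → ℝ, ∀ q, Φ q =
      S.indicator (fun w' => F w' q.2) (N q.1) := ⟨_, fun q => rfl⟩
  have hNSm : MeasurableSet {q : (ℕ → V → ℝ) × (ℕ → V → ℝ) | N q.1 ∈ S} :=
    (hNm.comp measurable_fst) hS
  have hΦm : Measurable Φ := by
    have e1 : Φ = {q : (ℕ → V → ℝ) × (ℕ → V → ℝ) | N q.1 ∈ S}.indicator
        (fun q => F (N q.1) q.2) := by
      funext q
      rw [hΦ]
      by_cases h : N q.1 ∈ S
      · rw [Set.indicator_of_mem h, Set.indicator_of_mem (show q ∈ {q : (ℕ → V → ℝ) × (ℕ → V → ℝ) |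
          N q.1 ∈ S} from h)]
      · rw [Set.indicator_of_notMem h, Set.indicator_of_notMem (show q ∉ {q : (ℕ → V → ℝ) ×
          (ℕ → V → ℝ) | N q.1 ∈ S} from h)]
    rw [e1]
    exact (hFm.comp ((hNm.comp measurable_fst).prodMk measurable_snd)).indicator hNSm
  -- the random variable of the statement
  have hG : (fun ω => S.indicator (fun w' => F w' (cfg η ω)) (nw W T w (sft j (cfg η ω)))) =
      fun ω => Φ (sft (j + 1) (cfg η ω), cut j (cfg η ω)) := by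
    funext ω
    rw [hΦ, hNs]
    congr 1
    funext w'
    exact hFc w' _
  have hevent : {ω | nw W T w (sft j (cfg η ω)) ∈ S} = {ω | N (sft (j + 1) (cfg η ω)) ∈ S} := by
    ext ω
    show nw W T w (sft j (cfg η ω)) ∈ S ↔ N (sft (j + 1) (cfg η ω)) ∈ S
    rw [hNs]
  have hEm : MeasurableSet {ω | N (sft (j + 1) (cfg η ω)) ∈ S} := (hNm.comp hYm) hS
  -- facts on the frozen weight
  have hNf : ∀ ω, (∀ z, 0 ≤ N (sft (j + 1) (cfg η ω)) z) ∧ ∑ z, N (sft (j + 1) (cfg η ω)) z = 1 ∧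
      (∀ t : ℕ, (∀ z, w z ≠ 0 → W.cls t z) → ∀ z, N (sft (j + 1) (cfg η ω)) z ≠ 0 →
        W.cls (t + T) z) := by
    intro ω
    rw [← hNs]
    obtain ⟨a1, a2, -, -, a5⟩ := hnw (cfg η ω) (hgt ω)
    exact ⟨a1, a2, a5⟩
  have hSqN : ∀ ω, N (sft (j + 1) (cfg η ω)) ∈ S →
      Sq P (fun ω' => F (N (sft (j + 1) (cfg η ω))) (cfg η ω')) v :=
    fun ω h => hSq _ h (hNf ω).1 (hNf ω).2.1 (hNf ω).2.2
  have hΦin : ∀ ω, N (sft (j + 1) (cfg η ω)) ∈ S → ∀ ω',
      Φ (sft (j + 1) (cfg η ω), cut j (cfg η ω')) = F (N (sft (j + 1) (cfg η ω))) (cfg η ω') := by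
    intro ω h ω'
    rw [hΦ, Set.indicator_of_mem h, ← hFc]
  have hΦout : ∀ ω, N (sft (j + 1) (cfg η ω)) ∉ S → ∀ ω',
      Φ (sft (j + 1) (cfg η ω), cut j (cfg η ω')) = 0 := by
    intro ω h ω'
    rw [hΦ, Set.indicator_of_notMem h]
  -- square integrability
  have hΦ2m : Measurable fun q => Φ q ^ 2 := hΦm.pow_const 2
  have hGm : Measurable fun ω => Φ (sft (j + 1) (cfg η ω), cut j (cfg η ω)) :=
    hΦm.comp (hYm.prodMk hXm)
  have hlint : ∫⁻ ω, ENNReal.ofReal (Φ (sft (j + 1) (cfg η ω), cut j (cfg η ω)) ^ 2) ∂P ≤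
      ENNReal.ofReal v * P {ω | N (sft (j + 1) (cfg η ω)) ∈ S} := by
    rw [lint_frz P (fun ω => sft (j + 1) (cfg η ω)) (fun ω => cut j (cfg η ω))
      (fun q => ENNReal.ofReal (Φ q ^ 2)) hYm hXm hΦ2m.ennreal_ofReal hind.symm,
      ← lintegral_indicator_const hEm (ENNReal.ofReal v)]
    refine lintegral_mono fun ω => ?_
    by_cases h : N (sft (j + 1) (cfg η ω)) ∈ S
    · rw [Set.indicator_of_mem (show ω ∈ {ω | N (sft (j + 1) (cfg η ω)) ∈ S} from h)]
      obtain ⟨b1, b2⟩ := hSqN ω h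
      have b3 : ∫⁻ ω', ENNReal.ofReal (Φ (sft (j + 1) (cfg η ω), cut j (cfg η ω')) ^ 2) ∂P =
          ENNReal.ofReal (∫ ω', F (N (sft (j + 1) (cfg η ω))) (cfg η ω') ^ 2 ∂P) := by
        rw [ofReal_integral_eq_lintegral_ofReal b1.integrable_sq (ae_of_all _ fun _ => sq_nonneg _)]
        exact lintegral_congr fun ω' => by rw [hΦin ω h ω']
      show ∫⁻ ω', ENNReal.ofReal (Φ (sft (j + 1) (cfg η ω), cut j (cfg η ω')) ^ 2) ∂P ≤ _
      rw [b3]
      exact ENNReal.ofReal_le_ofReal b2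
    · have b4 : ∫⁻ ω', ENNReal.ofReal (Φ (sft (j + 1) (cfg η ω), cut j (cfg η ω')) ^ 2) ∂P = 0 := by
        have : ∀ ω', ENNReal.ofReal (Φ (sft (j + 1) (cfg η ω), cut j (cfg η ω')) ^ 2) = 0 :=
          fun ω' => by rw [hΦout ω h ω']; simp
        rw [lintegral_congr this, lintegral_zero]
      show ∫⁻ ω', ENNReal.ofReal (Φ (sft (j + 1) (cfg η ω), cut j (cfg η ω')) ^ 2) ∂P ≤ _
      rw [b4]
      exact zero_le
  have hfin : ENNReal.ofReal v * P {ω | N (sft (j + 1) (cfg η ω)) ∈ S} < ⊤ :=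
    ENNReal.mul_lt_top ENNReal.ofReal_lt_top (measure_lt_top P _)
  have hint2 : Integrable (fun ω => Φ (sft (j + 1) (cfg η ω), cut j (cfg η ω)) ^ 2) P := by
    refine ⟨(hGm.pow_const 2).aestronglyMeasurable, ?_⟩
    rw [hasFiniteIntegral_iff_ofReal (ae_of_all _ fun _ => sq_nonneg _)]
    exact hlint.trans_lt hfin
  have hmem : MemLp (fun ω => Φ (sft (j + 1) (cfg η ω), cut j (cfg η ω))) 2 P :=
    (memLp_two_iff_integrable_sq hGm.aestronglyMeasurable).mpr hint2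
  obtain ⟨hf1, hf2, -⟩ := hFRZ Ω (ℕ → V → ℝ) (ℕ → V → ℝ) ℝ P (fun ω => sft (j + 1) (cfg η ω))
    (fun ω => cut j (cfg η ω)) (fun q => Φ q ^ 2) hYm hXm hΦ2m hind.symm hint2
  have hinner2 : ∀ ω, ∫ ω', Φ (sft (j + 1) (cfg η ω), cut j (cfg η ω')) ^ 2 ∂P =
      {ω | N (sft (j + 1) (cfg η ω)) ∈ S}.indicator
        (fun ω => ∫ ω', F (N (sft (j + 1) (cfg η ω))) (cfg η ω') ^ 2 ∂P) ω := by
    intro ω
    by_cases h : N (sft (j + 1) (cfg η ω)) ∈ S
    · rw [Set.indicator_of_mem (show ω ∈ {ω | N (sft (j + 1) (cfg η ω)) ∈ S} from h)]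
      exact integral_congr_ae (ae_of_all _ fun ω' => by
        show Φ (sft (j + 1) (cfg η ω), cut j (cfg η ω')) ^ 2 = _
        rw [hΦin ω h ω'])
    · rw [Set.indicator_of_notMem (show ω ∉ {ω | N (sft (j + 1) (cfg η ω)) ∈ S} from h)]
      have : (fun ω' => Φ (sft (j + 1) (cfg η ω), cut j (cfg η ω')) ^ 2) = fun _ => (0 : ℝ) := by
        funext ω'; rw [hΦout ω h ω']; simp
      rw [this, integral_zero]
  rw [hevent]
  have hconst : ∀ c : ℝ, ∫ ω, {ω | N (sft (j + 1) (cfg η ω)) ∈ S}.indicator (fun _ => c) ω ∂P =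
      c * P.real {ω | N (sft (j + 1) (cfg η ω)) ∈ S} := by
    intro c
    rw [integral_indicator_const _ hEm, smul_eq_mul, mul_comm]
  have hci : ∀ c : ℝ, Integrable ({ω | N (sft (j + 1) (cfg η ω)) ∈ S}.indicator (fun _ => c)) P :=
    fun c => (integrable_const c).indicator hEm
  refine ⟨⟨?_, ?_⟩, ?_, ?_⟩
  · rw [hG]; exact hmem
  · have e2 : ∫ ω, (fun ω => S.indicator (fun w' => F w' (cfg η ω)) (nw W T w (sft j (cfg η ω)))) ω ^ 2 ∂P
        = ∫ ω, Φ (sft (j + 1) (cfg η ω), cut j (cfg η ω)) ^ 2 ∂P := by rw [hG]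
    refine e2.trans_le ?_
    rw [hf1, ← hconst v]
    refine integral_mono hf2 (hci v) fun ω => ?_
    show ∫ ω', Φ (sft (j + 1) (cfg η ω), cut j (cfg η ω')) ^ 2 ∂P ≤ _
    rw [hinner2]
    by_cases h : N (sft (j + 1) (cfg η ω)) ∈ S
    · rw [Set.indicator_of_mem (show ω ∈ {ω | N (sft (j + 1) (cfg η ω)) ∈ S} from h),
        Set.indicator_of_mem (show ω ∈ {ω | N (sft (j + 1) (cfg η ω)) ∈ S} from h)]
      exact (hSqN ω h).2
    · rw [Set.indicator_of_notMem (show ω ∉ {ω | N (sft (j + 1) (cfg η ω)) ∈ S} from h),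
        Set.indicator_of_notMem (show ω ∉ {ω | N (sft (j + 1) (cfg η ω)) ∈ S} from h)]
  · intro hlow
    have e2 : ∫ ω, (fun ω => S.indicator (fun w' => F w' (cfg η ω)) (nw W T w (sft j (cfg η ω)))) ω ^ 2 ∂P
        = ∫ ω, Φ (sft (j + 1) (cfg η ω), cut j (cfg η ω)) ^ 2 ∂P := by rw [hG]
    refine le_of_le_of_eq ?_ e2.symm
    rw [hf1, ← hconst v']
    refine integral_mono (hci v') hf2 fun ω => ?_
    show _ ≤ ∫ ω', Φ (sft (j + 1) (cfg η ω), cut j (cfg η ω')) ^ 2 ∂P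
    rw [hinner2]
    by_cases h : N (sft (j + 1) (cfg η ω)) ∈ S
    · rw [Set.indicator_of_mem (show ω ∈ {ω | N (sft (j + 1) (cfg η ω)) ∈ S} from h),
        Set.indicator_of_mem (show ω ∈ {ω | N (sft (j + 1) (cfg η ω)) ∈ S} from h)]
      exact hlow _ h (hNf ω).1 (hNf ω).2.1
    · rw [Set.indicator_of_notMem (show ω ∉ {ω | N (sft (j + 1) (cfg η ω)) ∈ S} from h),
        Set.indicator_of_notMem (show ω ∉ {ω | N (sft (j + 1) (cfg η ω)) ∈ S} from h)]
  · intro hzero g hg hgL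
    have e3 : ∫ ω, g (sft (j + 1) (cfg η ω)) * S.indicator (fun w' => F w' (cfg η ω))
        (nw W T w (sft j (cfg η ω))) ∂P = ∫ ω, g (sft (j + 1) (cfg η ω)) *
          Φ (sft (j + 1) (cfg η ω), cut j (cfg η ω)) ∂P := by
      refine integral_congr_ae (ae_of_all _ fun ω => ?_)
      exact congrArg (fun r => g (sft (j + 1) (cfg η ω)) * r) (congrFun hG ω)
    rw [e3]
    have hi : Integrable (fun ω => g (sft (j + 1) (cfg η ω)) *
        Φ (sft (j + 1) (cfg η ω), cut j (cfg η ω))) P := hgL.integrable_mul hmem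
    obtain ⟨hk1, -, -⟩ := hFRZ Ω (ℕ → V → ℝ) (ℕ → V → ℝ) ℝ P (fun ω => sft (j + 1) (cfg η ω))
      (fun ω => cut j (cfg η ω)) (fun q => g q.1 * Φ q) hYm hXm
      ((hg.comp measurable_fst).mul hΦm) hind.symm hi
    refine hk1.trans ?_
    have hz : ∀ ω, ∫ ω', g (sft (j + 1) (cfg η ω)) *
        Φ (sft (j + 1) (cfg η ω), cut j (cfg η ω')) ∂P = 0 := by
      intro ω
      rw [integral_const_mul]
      by_cases h : N (sft (j + 1) (cfg η ω)) ∈ S
      · have : ∫ ω', Φ (sft (j + 1) (cfg η ω), cut j (cfg η ω')) ∂P =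
            ∫ ω', F (N (sft (j + 1) (cfg η ω))) (cfg η ω') ∂P :=
          integral_congr_ae (ae_of_all _ fun ω' => by
            show Φ (sft (j + 1) (cfg η ω), cut j (cfg η ω')) = _
            rw [hΦin ω h ω'])
        rw [this, hzero _ h (hNf ω).1 (hNf ω).2.1, mul_zero]
      · have : (fun ω' => Φ (sft (j + 1) (cfg η ω), cut j (cfg η ω'))) = fun _ => (0 : ℝ) := by
          funext ω'; exact hΦout ω h ω'
        rw [this, integral_zero, mul_zero]
    have : (fun ω => ∫ ω', (fun q : (ℕ → V → ℝ) × (ℕ → V → ℝ) => g q.1 * Φ q)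
        (sft (j + 1) (cfg η ω), cut j (cfg η ω')) ∂P) = fun _ => (0 : ℝ) := by
      funext ω; exact hz ω
    show ∫ ω, (∫ ω', (fun q : (ℕ → V → ℝ) × (ℕ → V → ℝ) => g q.1 * Φ q)
        (sft (j + 1) (cfg η ω), cut j (cfg η ω')) ∂P) ∂P = 0
    rw [this, integral_zero]

end Pool.Agent.H224.CW
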